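import Pool.Agent.Helper85_CYD.St2
import Pool.Agent.Helper85_CYD.StG

/-! # CYD, module IDN: the identities for `g` and `g*` (helper24) -/

set_option autoImplicit false

open Polynomial

namespace Pool.Agent.CYD

theorem idn (hRev : RevStmt) : IdnStmt := by
  intro p m g h hp hm hpm F K _ _ x hx
  have hmp : 3 ≤ p * m := F.hn
  have h0 : aeval x (cyclotomic (p * m) ℤ) = 0 := by
    have h1 := hx.isRoot_cyclotomic (by omega)
    rw [IsRoot.def, ← map_cyclotomic_int, eval_map, ← algebraMap_int_eq, ← aeval_def] at h1
    exact h1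
  have h3 : aeval x g.reverse * aeval x h.reverse = -(x * (aeval x g * aeval x h)) := by
    have h1 := congrArg (aeval x) (hRev (p * m) hmp)
    rw [← F.fac, reverse_mul_of_domain] at h1
    simp only [map_add, map_mul, aeval_X, h0, mul_zero] at h1
    exact (eq_neg_of_add_eq_zero_right h1)
  have h1 : aeval x g * (aeval x h * aeval x (cyclotomic m ℤ)) =
      p * (x ^ (p - 1) * aeval (x ^ p) (derivative (cyclotomic m ℤ))) := by
    have e := cyclotomic_expand_eq_cyclotomic_mul hp hpm ℤ
    have e1 := congrArg (fun f => aeval x (derivative f)) e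
    simp only [derivative_expand, derivative_mul, map_add, map_mul, expand_aeval, map_natCast,
      aeval_X_pow] at e1
    rw [mul_comm m p, h0, zero_mul, add_zero, ← F.fac, map_mul] at e1
    rw [← mul_assoc, ← e1]
    ring
  refine ⟨h1, ?_, h3⟩
  rw [← mul_assoc, h3]
  have e2 : -(x * (aeval x g * aeval x h)) * aeval x (cyclotomic m ℤ) =
      -(x * (aeval x g * (aeval x h * aeval x (cyclotomic m ℤ)))) := by ring
  rw [e2, h1]
  have e3 : x ^ p = x * x ^ (p - 1) := by
    rw [← pow_succ']
    congr 1
    have := hp.two_le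
    omega
  generalize aeval (x ^ p) (derivative (cyclotomic m ℤ)) = Y
  rw [e3]
  ring

end Pool.Agent.CYD
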