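import Pool.Agent.Helper85_CYD.St2

/-! # CYD, module WPD: degrees, periodicity and nonvanishing for `WP` (helper24) -/

set_option autoImplicit false

open Polynomial

namespace Pool.Agent.CYD

theorem wpd : WpdStmt := by
  intro L _ m d A B T
  induction T with
  | nil =>
    intro _ hB hP
    refine ⟨fun b => ?_, fun b b' hb => ?_⟩
    · simp only [WP, List.map_nil, List.prod_nil, mul_one]
      exact hB b
    · simp only [WP]
      rw [(hP b b' hb).1, (hP b b' hb).2]
  | cons x t ih =>
    intro hx hB hP
    have hx1 : 1 ≤ x.2 := hx x List.mem_cons_self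
    obtain ⟨h1, h2⟩ := ih (fun y hy => hx y (List.mem_cons_of_mem _ hy)) hB hP
    refine ⟨fun b => ?_, fun b b' hb => ?_⟩
    · obtain ⟨n1, a1, b1⟩ := h1 b
      obtain ⟨n2, a2, b2⟩ := h1 (x.1 * b)
      have e : ∀ f : L[X], f.natDegree ≤ d * (t.map (fun x => 1 + x.2)).prod →
          (expand L x.2 f).natDegree ≤ d * (t.map (fun x => 1 + x.2)).prod * x.2 := by
        intro f hf
        rw [natDegree_expand]
        exact Nat.mul_le_mul_right _ hf
      have s : d * ((x :: t).map (fun x => 1 + x.2)).prod =
          d * (t.map (fun x => 1 + x.2)).prod * x.2 + d * (t.map (fun x => 1 + x.2)).prod := by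
        rw [List.map_cons, List.prod_cons]
        ring
      rw [s]
      simp only [WP]
      refine ⟨mul_ne_zero ?_ n1, ?_, ?_⟩
      · rw [Ne, expand_eq_zero (by omega)]
        exact n2
      · refine (natDegree_sub_le _ _).trans (max_le ?_ ?_)
        · refine natDegree_mul_le.trans (Nat.add_le_add ?_ b1)
          exact (natDegree_C_mul_le _ _).trans (e _ a2)
        · refine natDegree_mul_le.trans ?_
          rw [add_comm]
          exact Nat.add_le_add (e _ b2) a1
      · exact natDegree_mul_le.trans (Nat.add_le_add (e _ b2) b1)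
    · simp only [WP]
      rw [h2 b b' hb, h2 (x.1 * b) (x.1 * b') (Nat.ModEq.mul_left _ hb)]

end Pool.Agent.CYD
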